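import Pool.Agent.H30.ES.CONV
import Pool.Agent.H30.ES.POLR
import Pool.Agent.H49.G.R_seed8.TH935.LP.W9

/-!
# The exceptional shifts of the additive divisor problem

The densities `P_q`, the singular series, the approximation of the divisor functions by Ramanujan expansions with a power
saving (`MP_122e00_nt.PowerSavingShifts`) and the energy of convex sequences (`MP_122e00_nt.ConvexShifts`) are from the
starting files. The case `p = 1` of part (1) is the starting files' `MP_122e00_nt.FewExceptionalShifts`.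
-/

set_option autoImplicit false

namespace Pool.Agent.Results.MP_122e00_nt.ExceptionalShifts

open Finset Polynomial

/-- `d_r(n)`: the number of the ordered `r`-tuples of positive integers with product `n` (and `d_r(0) = 0`) -/
def d (r n : ℕ) : ℕ := ((ArithmeticFunction.zeta : ArithmeticFunction ℕ) ^ r) n

/-- `D_r(x; h)`: the sum of `d_r(n) d_r(n + h)` over `1 ≤ n ≤ x`, with `d_r(m) = 0` for `m ≤ 0` -/
noncomputable def D (r x : ℕ) (h : ℤ) : ℝ := ∑ n ∈ Icc 1 x, (d r n : ℝ) * d r ((n : ℤ) + h).toNat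

/-- `e(t) = exp(2 π i t)` -/
noncomputable def e (t : ℝ) : ℂ := Complex.exp (2 * Real.pi * Complex.I * t)

/-- The Ramanujan sum `c_q(h)`: the sum of `μ(q / g) g` over the common divisors `g` of `q` and `h`. -/
def ram (q : ℕ) (h : ℤ) : ℤ := ∑ g ∈ q.divisors.filter (fun g : ℕ => (g : ℤ) ∣ h), ArithmeticFunction.moebius (q / g) * g

/-- `κ_s(q)`: the proportion of the `s`-tuples of residues `0 ≤ a < q` whose product is divisible by `q` -/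
noncomputable def κ (s q : ℕ) : ℝ := (Nat.card {a : Fin s → Fin q // q ∣ ∏ i, (a i : ℕ)} : ℝ) / (q : ℝ) ^ s

/-- The singular series `𝔖_r(h)`: the sum of `κ_{r - 1}(q) ^ 2 c_q(h)` over the `q ≥ 1`. -/
noncomputable def 𝔖 (r : ℕ) (h : ℤ) : ℝ := ∑' q : ℕ, κ (r - 1) (q + 1) ^ 2 * (ram (q + 1) h : ℝ)

/-- The polynomials `P_q`, `q ≥ 1`, are the densities of `d_r(n) e(b n / q)`, `(b, q) = 1`, with a power saving. -/
def Density (r : ℕ) (P : ℕ → ℝ[X]) : Prop := ∃ C A δ : ℝ, 0 < δ ∧ ∀ q b x : ℕ, 1 ≤ q → b.Coprime q → 1 ≤ x →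
  ‖∑ n ∈ Icc 1 x, (d r n : ℂ) * e ((b : ℝ) * n / q) - ((∑ n ∈ Icc 1 x, (P q).eval (Real.log n) : ℝ) : ℂ)‖ ≤
    C * (q : ℝ) ^ A * (x : ℝ) ^ (1 - δ)

/-- the series `∑ c_q(h) P_q(u) P_q(v)` over the `q ≥ 1` -/
noncomputable def G (P : ℕ → ℝ[X]) (h : ℤ) (u v : ℝ) : ℝ :=
  ∑' q : ℕ, (ram (q + 1) h : ℝ) * ((P (q + 1)).eval u * (P (q + 1)).eval v)

/-- the main term: the sum of `G (log n) (log (n + h))` over the `n` with `1 ≤ n ≤ x` and `n + h ≥ 1` -/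
noncomputable def main (P : ℕ → ℝ[X]) (x : ℕ) (h : ℤ) : ℝ :=
  ∑ n ∈ (Icc 1 x).filter (fun n : ℕ => 1 ≤ (n : ℤ) + h), G P h (Real.log n) (Real.log ((n : ℝ) + h))

/-- For ALL `x ≤ N`: `D_r(x; h)` is the main term up to `N ^ (1 - θ)` and, if `|h| ≤ N ^ (1 - η)`, it is
`x T_h(log x)` up to `N ^ (1 - η / 8)`. -/
def Asymp (r N : ℕ) (P : ℕ → ℝ[X]) (T : ℤ → ℝ[X]) (θ η : ℝ) (h : ℤ) : Prop := ∀ x : ℕ, x ≤ N →
  |D r x h - main P x h| ≤ (N : ℝ) ^ (1 - θ) ∧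
    ((|h| : ℝ) ≤ (N : ℝ) ^ (1 - η) → |D r x h - x * (T h).eval (Real.log x)| ≤ (N : ℝ) ^ (1 - η / 8))

/-- The additive energy of order `p` of a finite family `v` of integers: the number of the solutions of
`v (i 1) + ⋯ + v (i p) = v (j 1) + ⋯ + v (j p)`. -/
noncomputable def energy (p : ℕ) {ι : Type} [Fintype ι] (v : ι → ℤ) : ℕ :=
  Nat.card {q : (Fin p → ι) × (Fin p → ι) // ∑ j, v (q.1 j) = ∑ j, v (q.2 j)}

theorem κ_eq (s q : ℕ) (hq : 1 ≤ q) : κ s q = Pool.Agent.TH212.DV.kap s q := Pool.Agent.TH212.DV.kap_card s q hq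

theorem ram_eq (q : ℕ) (h : ℤ) : ram q h = Pool.Agent.TH212.DV.cz q h := rfl

theorem 𝔖_eq (t : ℕ) (h : ℤ) (hh : h ≠ 0) : 𝔖 (t + 2) h = Pool.Agent.TH212.DV.Sing (t + 1) h.natAbs := by
  have h1 := Pool.Agent.TH212.DV.sing_summable t h.natAbs (by omega)
  unfold 𝔖 Pool.Agent.TH212.DV.Sing
  rw [h1.tsum_eq_zero_add, Pool.Agent.TH212.DV.cz_zero_left, Int.cast_zero, mul_zero, zero_add]
  apply tsum_congr
  intro q
  rw [κ_eq _ _ (Nat.succ_pos q), ram_eq, Pool.Agent.TH212.PS.cz_natAbs]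
  rfl

theorem D_eq (r x : ℕ) (h : ℤ) : D r x h = Pool.Agent.TH212.PS.Dr r x h := rfl

theorem G_eq (t : ℕ) (P : ℕ → ℝ[X]) (hP : Pool.Agent.TH212.PS.HW t P) (h : ℤ) (hh : h ≠ 0) (u v : ℝ) :
    G P h u v = ∑' q : ℕ, (Pool.Agent.TH212.DV.cz q h : ℝ) * ((P q).eval u * (P q).eval v) := by
  have h1 := Pool.Agent.TH212.PS.series_summable t P hP h hh u v
  rw [h1.tsum_eq_zero_add, Pool.Agent.TH212.DV.cz_zero_left, Int.cast_zero, zero_mul, zero_add]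
  rfl

theorem main_eq (t : ℕ) (P : ℕ → ℝ[X]) (hP : Pool.Agent.TH212.PS.HW t P) (x : ℕ) (h : ℤ) (hh : h ≠ 0) :
    main P x h = Pool.Agent.TH212.PS.Mf P x h := by
  unfold main Pool.Agent.TH212.PS.Mf
  rw [sum_filter]
  apply sum_congr rfl
  intro n _
  split_ifs with hc
  · rw [G_eq t P hP h hh]
    have e1 : ((((n : ℤ) + h).toNat : ℕ) : ℝ) = (n : ℝ) + h := by
      have : ((((n : ℤ) + h).toNat : ℕ) : ℤ) = (n : ℤ) + h := Int.toNat_of_nonneg (by omega)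
      exact_mod_cast this
    rw [e1]
  · rfl

theorem asymp_of (t N : ℕ) (P : ℕ → ℝ[X]) (hP : Pool.Agent.TH212.PS.HW t P) (θ η : ℝ) (h : ℤ) (hh : h ≠ 0)
    (hg : Pool.Agent.TH212.PS.GoodP t N P θ η h) : Asymp (t + 2) N P (Pool.Agent.TH212.PS.Th t P) θ η h := by
  intro x hx
  rw [main_eq t P hP x h hh, D_eq]
  exact hg x hx

theorem exists_P (t : ℕ) : ∃ P : ℕ → ℝ[X], Pool.Agent.TH212.PS.HW t P ∧
    (∀ q, 1 ≤ q → (P q).coeff (t + 1) = Pool.Agent.TH212.DV.kap (t + 1) q / ((t + 1).factorial : ℝ)) ∧ Density (t + 2) P := by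
  obtain ⟨P, h1, h2, h3, C, A, δ, hδ, h4⟩ := Pool.Agent.TH935.LP.W_full (t + 2) (by omega)
  refine ⟨P, ⟨fun q => (h1 q).trans (by omega), ?_⟩, h2, C, A, δ, hδ, fun q b x hq hb hx => ?_⟩
  · obtain ⟨C', A', δ', hδ', h5⟩ := h3 (4 * (t + 2))
    refine ⟨|C'|, |A'|, δ', abs_nonneg _, abs_nonneg _, hδ', fun q Y n hq hY hn1 hn2 => (h5 q Y n hq hY hn1 hn2).trans ?_⟩
    have hq1 : (1 : ℝ) ≤ q := by exact_mod_cast hq
    apply mul_le_mul_of_nonneg_right _ (by positivity)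
    exact mul_le_mul (le_abs_self _) (Real.rpow_le_rpow_of_exponent_le hq1 (le_abs_self _)) (by positivity) (abs_nonneg _)
  · have h5 := h4 q b x hq hb hx
    have e1 : ∑ n ∈ Icc 1 x, (d (t + 2) n : ℂ) * e ((b : ℝ) * n / q) =
        ∑ n ∈ Icc 1 x, (Pool.Agent.TH935.LD.dk (t + 2) n : ℂ) * Complex.exp (2 * Real.pi * Complex.I * (b * n / q)) := by
      apply sum_congr rfl
      intro n _
      unfold e
      push_cast
      rfl
    rw [e1]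
    exact h5


/-- the differences of the sequence `a 0, …, a (n - 1)` strictly increase, or they strictly decrease -/
def ConvexOrConcave (n : ℕ) (a : ℕ → ℤ) : Prop :=
  (∀ i, i + 2 < n → a (i + 1) - a i < a (i + 2) - a (i + 1)) ∨ (∀ i, i + 2 < n → a (i + 2) - a (i + 1) < a (i + 1) - a i)

open Classical in
/-- **The exceptional shifts of the additive divisor problem.** Let `r ≥ 3`. There are polynomials `P_q` (`q ≥ 1`) and
`T_h` (`h ≠ 0`) with the following properties.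

(0) `P_q` is the density of `d_r(n) e(b n / q)`, `(b, q) = 1`; it has degree `r - 1`, leading coefficient
`κ_{r - 1}(q) / (r - 1)!`, and coefficients `O(q ^ (ε - 1))`. For `h ≠ 0` the series `G_h(u, v) = ∑ c_q(h) P_q(u) P_q(v)`
converges absolutely; `T_h(u) + T_h'(u) = G_h(u, u)`, so that `y T_h(log y)` has the derivative `G_h(log y, log y)`;
`T_h` has degree `2 r - 2` and leading coefficient `𝔖_r(h) / ((r - 1)!) ^ 2`.

A shift `h ≠ 0`, `|h| ≤ N`, is good (`Asymp`) if for ALL `x ≤ N`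
`D_r(x; h) = ∑ G_h(log n, log(n + h)) + O(N ^ (1 - θ))` (the sum over `n ≤ x` with `n + h ≥ 1`) and, if
`|h| ≤ N ^ (1 - η)`, `D_r(x; h) = x T_h(log x) + O(N ^ (1 - η / 8))`, with implied constants `1`.

(1) For all `p ≥ 1` and `ε > 0` there is `θ > 0` such that for every `0 < η ≤ θ` and every large `N` every finite family
`v` of shifts which are not good satisfies `(#ι) ^ (2 p) ≤ N ^ (1 - 2 / r + ε) · energy p v`.

(2) For every `ε > 0` there is `θ > 0` such that for every `0 < η ≤ θ`, every large `N`, every `n ≥ N ^ (1 / 2 - 1 / r + ε)`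
and EVERY sequence `a 0, …, a (n - 1)` of integers of size at most `N` whose differences are strictly monotone, all but at
most `N ^ (-θ) n` of the shifts `h = a i ≠ 0` are good.

(3) For all `k ≥ 2` and `ε > 0` there is `θ > 0` such that for every `0 < η ≤ θ`, every large `N` and EVERY `f ∈ ℤ[X]` of
degree `k` there are at most `N ^ (1 / 2 - 1 / r + ε)` integers `m` with `0 < |f m| ≤ N` such that `h = f m` is not good.

(4) For every `f ∈ ℤ[X]` of degree `k ≥ 1` and `ε > 0` there is `θ > 0` such that for every `0 < η ≤ θ`, every large `N`,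
every `M` with `M ^ k ≥ N ^ (1 - 2 / r + ε)` and EVERY integer `c` all but at most `N ^ (-θ) M` of the shifts
`h = c + f m`, `1 ≤ m ≤ M`, with `0 < |h| ≤ N` are good. -/
theorem result (r : ℕ) (hr : 3 ≤ r) : ∃ (P : ℕ → ℝ[X]) (T : ℤ → ℝ[X]),
    (Density r P ∧ (∀ q, 1 ≤ q → (P q).natDegree = r - 1 ∧ (P q).leadingCoeff = κ (r - 1) q / ((r - 1).factorial : ℝ)) ∧
      ∀ ε : ℝ, 0 < ε → ∃ C : ℝ, ∀ q i : ℕ, 1 ≤ q → |(P q).coeff i| ≤ C * (q : ℝ) ^ (ε - 1)) ∧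
    (∀ h : ℤ, h ≠ 0 → (∀ u v : ℝ, Summable (fun q : ℕ => (ram (q + 1) h : ℝ) * ((P (q + 1)).eval u * (P (q + 1)).eval v))) ∧
      (∀ u : ℝ, (T h).eval u + (derivative (T h)).eval u = G P h u u) ∧
      (T h).natDegree = 2 * r - 2 ∧ (T h).leadingCoeff = 𝔖 r h / ((r - 1).factorial : ℝ) ^ 2) ∧
    (∀ p : ℕ, 1 ≤ p → ∀ ε : ℝ, 0 < ε → ∃ θ : ℝ, 0 < θ ∧ ∀ η : ℝ, 0 < η → η ≤ θ → ∃ N₀ : ℕ, ∀ N : ℕ, N₀ ≤ N →
      ∀ (ι : Type) [Fintype ι] (v : ι → ℤ), (∀ i, v i ≠ 0 ∧ |v i| ≤ N ∧ ¬ Asymp r N P T θ η (v i)) →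
      (Fintype.card ι : ℝ) ^ (2 * p) ≤ (N : ℝ) ^ (1 - 2 / (r : ℝ) + ε) * energy p v) ∧
    (∀ ε : ℝ, 0 < ε → ∃ θ : ℝ, 0 < θ ∧ ∀ η : ℝ, 0 < η → η ≤ θ → ∃ N₀ : ℕ, ∀ N : ℕ, N₀ ≤ N →
      ∀ n : ℕ, (N : ℝ) ^ (1 / 2 - 1 / (r : ℝ) + ε) ≤ n → ∀ a : ℕ → ℤ, ConvexOrConcave n a → (∀ i < n, |a i| ≤ (N : ℤ)) →
      (((range n).filter (fun i => a i ≠ 0 ∧ ¬ Asymp r N P T θ η (a i))).card : ℝ) ≤ (N : ℝ) ^ (-θ) * n) ∧
    (∀ k : ℕ, 2 ≤ k → ∀ ε : ℝ, 0 < ε → ∃ θ : ℝ, 0 < θ ∧ ∀ η : ℝ, 0 < η → η ≤ θ → ∃ N₀ : ℕ, ∀ N : ℕ, N₀ ≤ N →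
      ∀ f : ℤ[X], f.natDegree = k → ∀ S : Finset ℤ,
        (∀ m ∈ S, f.eval m ≠ 0 ∧ |f.eval m| ≤ (N : ℤ) ∧ ¬ Asymp r N P T θ η (f.eval m)) →
          (S.card : ℝ) ≤ (N : ℝ) ^ (1 / 2 - 1 / (r : ℝ) + ε)) ∧
    (∀ f : ℤ[X], 1 ≤ f.natDegree → ∀ ε : ℝ, 0 < ε → ∃ θ : ℝ, 0 < θ ∧ ∀ η : ℝ, 0 < η → η ≤ θ → ∃ N₀ : ℕ, ∀ N : ℕ, N₀ ≤ N →
      ∀ M : ℕ, (N : ℝ) ^ (1 - 2 / (r : ℝ) + ε) ≤ (M : ℝ) ^ f.natDegree → ∀ c : ℤ,
        (((Icc 1 M).filter (fun m : ℕ => c + f.eval (m : ℤ) ≠ 0 ∧ |c + f.eval (m : ℤ)| ≤ (N : ℤ) ∧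
          ¬ Asymp r N P T θ η (c + f.eval (m : ℤ)))).card : ℝ) ≤ (N : ℝ) ^ (-θ) * M) := by
  obtain ⟨t, rfl⟩ : ∃ t, r = t + 2 := ⟨r - 2, by omega⟩
  have ht : 1 ≤ t := by omega
  obtain ⟨P, hP, hlead, hdens⟩ := exists_P t
  have e0 : t + 2 - 1 = t + 1 := by omega
  have e2 : 2 * (t + 2) - 2 = 2 * t + 2 := by omega
  have hen : ∀ (p : ℕ) (ι : Type) [Fintype ι] (v : ι → ℤ), Pool.Agent.TH212.PL.En p v = energy p v := fun p ι _ v => rfl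
  refine ⟨P, Pool.Agent.TH212.PS.Th t P, ⟨hdens, ?_, ?_⟩, ?_, ?_, ?_, ?_, ?_⟩
  · intro q hq
    rw [e0]
    have hk := Pool.Agent.TH212.PS.kap_pos t q hq
    have hc := hlead q hq
    have hne : (P q).coeff (t + 1) ≠ 0 := by
      rw [hc]
      positivity
    have hd : (P q).natDegree = t + 1 := le_antisymm (hP.deg q) (le_natDegree_of_ne_zero hne)
    refine ⟨hd, ?_⟩
    unfold leadingCoeff
    rw [hd, hc, κ_eq _ _ hq]
  · intro ε hε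
    obtain ⟨C, _, h1⟩ := Pool.Agent.TH212.PS.coeff_bound t P hP ε hε
    exact ⟨C, fun q i hq => h1 q hq i⟩
  · intro h hh
    refine ⟨fun u v => ?_, fun u => ?_, ?_, ?_⟩
    · exact (summable_nat_add_iff 1).2 (Pool.Agent.TH212.PS.series_summable t P hP h hh u v)
    · rw [G_eq t P hP h hh]
      exact Pool.Agent.TH212.PS.Th_eq t P hP h hh u
    · rw [e2]
      exact (Pool.Agent.TH212.PS.Th_full t P hlead h hh).1
    · rw [e0, 𝔖_eq t h hh]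
      exact (Pool.Agent.TH212.PS.Th_full t P hlead h hh).2
  · intro p hp ε hε
    obtain ⟨θ, hθ, _, h1⟩ := Pool.Agent.H30.ES.main t P ht hP p ε hp hε
    refine ⟨θ, hθ, fun η hη hηθ => ?_⟩
    obtain ⟨N₀, h2⟩ := h1 η hη hηθ
    refine ⟨N₀, fun N hN ι _ v hv => ?_⟩
    have h3 := h2 N hN ι v (fun i => ⟨(hv i).1, (hv i).2.1⟩) (fun i hg => (hv i).2.2 (asymp_of t N P hP θ η (v i) (hv i).1 hg))
    rw [hen] at h3
    push_cast
    exact h3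
  · intro ε hε
    obtain ⟨θ, hθ, h1⟩ := Pool.Agent.H30.ES.conv_dev t P ht hP ε hε
    refine ⟨θ, hθ, fun η hη hηθ => ?_⟩
    obtain ⟨N₀, h2⟩ := h1 η hη hηθ
    refine ⟨N₀, fun N hN n hn a ha hb => ?_⟩
    push_cast at hn
    refine le_trans (Nat.cast_le.2 (card_le_card ?_)) (h2 N hN n hn a ha hb)
    intro i hi
    rw [mem_filter] at hi ⊢
    exact ⟨hi.1, hi.2.1, fun hg => hi.2.2 (asymp_of t N P hP θ η _ hi.2.1 hg)⟩
  · intro k hk ε hε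
    obtain ⟨θ, hθ, h1⟩ := Pool.Agent.H30.ES.POLY.unif t P ht hP k hk ε hε
    refine ⟨θ, hθ, fun η hη hηθ => ?_⟩
    obtain ⟨N₀, h2⟩ := h1 η hη hηθ
    refine ⟨N₀, fun N hN f hf S hS => ?_⟩
    push_cast
    exact h2 N hN f hf S (fun m hm => ⟨(hS m hm).1, (hS m hm).2.1, fun hg =>
      (hS m hm).2.2 (asymp_of t N P hP θ η _ (hS m hm).1 hg)⟩)
  · intro f hf ε hε
    obtain ⟨θ, hθ, h1⟩ := Pool.Agent.H30.ES.POLR.short t P ht hP f hf ε hε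
    refine ⟨θ, hθ, fun η hη hηθ => ?_⟩
    obtain ⟨N₀, h2⟩ := h1 η hη hηθ
    refine ⟨N₀, fun N hN M hM c => ?_⟩
    push_cast at hM
    refine le_trans (Nat.cast_le.2 (card_le_card ?_)) (h2 N hN M hM c)
    intro m hm
    rw [mem_filter] at hm ⊢
    exact ⟨hm.1, hm.2.1, hm.2.2.1, fun hg => hm.2.2.2 (asymp_of t N P hP θ η _ hm.2.1 hg)⟩

end Pool.Agent.Results.MP_122e00_nt.ExceptionalShifts
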