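import Pool.Agent.H49.D.JF

set_option autoImplicit false

open Finset Filter Topology

namespace Pool.Agent.Results.MP_122e00_nt.ExceptionalSlopes

/-- the number `d_r(n)` of ordered factorisations of `n` into `r` factors (`0` at `n = 0`) -/
def d (r n : ℕ) : ℕ := ((ArithmeticFunction.zeta : ArithmeticFunction ℕ) ^ r) n

/-- the sum of `d_{r₀}(n) ∏ i, d_{r i}(⌊α i * n⌋ + h i)` over `1 ≤ n ≤ X` (`d_r = 0` at integers `≤ 0`) -/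
noncomputable def Cor {k : ℕ} (r₀ : ℕ) (r : Fin k → ℕ) (α : Fin k → ℝ) (h : Fin k → ℤ) (X : ℕ) : ℝ :=
  ∑ n ∈ Icc 1 X, (d r₀ n : ℝ) * ∏ i, (d (r i) (⌊α i * (n : ℝ)⌋ + h i).toNat : ℝ)

theorem result (k r₀ : ℕ) (r : Fin k → ℕ) (h₀ : 1 ≤ r₀) (hr : ∀ i, 1 ≤ r i) :
    -- (1) generic slopes: large values
    (∀ g : ℕ → ℝ, Tendsto g atTop (𝓝 0) → ∀ᶠ α in residual (Fin k → ℝ), (∀ i, 0 < α i) → ∀ h : Fin k → ℤ,
      ∃ᶠ X : ℕ in atTop, g X * (X * Real.log X ^ (r₀ * ∏ i, r i - 1)) < Cor r₀ r α h X) ∧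
    -- (2) rational slopes
    (∀ q : ℕ, 1 ≤ q → ∀ a : Fin k → ℕ, (∀ i, 1 ≤ a i) → ∃ c : ℝ, 0 < c ∧ ∀ᶠ X : ℕ in atTop,
      c * (X * Real.log X ^ (r₀ * ∏ i, r i - 1)) ≤ Cor r₀ r (fun i => (a i : ℝ) / q) (fun _ => 0) X) ∧
    -- (3) all slopes
    (∀ α : Fin k → ℝ, (∀ i, 0 < α i) → ∀ h : Fin k → ℤ, ∃ C : ℝ, ∀ X : ℕ, 2 ≤ X →
      Cor r₀ r α h X ≤ C * (X * Real.log X ^ (r₀ * ∏ i, r i - 1))) ∧
    -- (4) generic slopes: limit points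
    ((r₀ - 1) + ∑ i, (r i - 1) < r₀ * ∏ i, r i - 1 →
      ∀ᶠ α in residual (Fin k → ℝ), (∀ i, 0 < α i) → ∀ h : Fin k → ℤ, ∀ y : ℝ,
        1 / (((r₀ - 1).factorial : ℝ) * ∏ i, ((r i - 1).factorial : ℝ)) ≤ y →
          MapClusterPt y atTop (fun X : ℕ => Cor r₀ r α h X / (X * Real.log X ^ ((r₀ - 1) + ∑ i, (r i - 1))))) :=
  ⟨fun g hg => Pool.Agent.H49.EX.generic r₀ r h₀ hr g hg,
    fun q hq a ha => Pool.Agent.H49.EX.rational r₀ r h₀ hr q hq a ha,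
    fun α hα h => Pool.Agent.H49.EX.upper r₀ r h₀ hr α hα h,
    fun hs => Pool.Agent.H49.EX.limit_points r₀ r h₀ hr hs⟩

end Pool.Agent.Results.MP_122e00_nt.ExceptionalSlopes
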