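import Pool.Agent.H49.D.DO

set_option autoImplicit false

open Finset MeasureTheory Polynomial

namespace Pool.Agent.Results.MP_122e00_nt.RealMonomials

/-- the number `d_r(n)` of ordered factorisations of `n` into `r` factors (`0` at `n = 0`) -/
def d (r n : ℕ) : ℕ := ((ArithmeticFunction.zeta : ArithmeticFunction ℕ) ^ r) n

theorem result : ∃ P : ℕ → ℝ[X],
    (∀ r, 1 ≤ r → (P r).natDegree = r - 1 ∧ (P r).leadingCoeff = 1 / ((r - 1).factorial : ℝ)) ∧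
    -- (1) the asymptotic formulas
    (∀ (k r₀ : ℕ) (r : Fin k → ℕ) (c : Fin k → ℝ), 1 ≤ r₀ → (∀ i, 1 ≤ r i) → (∀ i, 0 < c i) →
      ∃ δ : ℝ, 0 < δ ∧ ∀ᵐ α : Fin k → ℝ, (∀ i, 0 < α i) → ∃ R : ℝ[X],
        R.natDegree = (r₀ - 1) + ∑ i, (r i - 1) ∧
        R.leadingCoeff = (∏ i, c i ^ (r i - 1)) / (((r₀ - 1).factorial : ℝ) * ∏ i, ((r i - 1).factorial : ℝ)) ∧
        (∀ u : ℝ, R.eval u + (derivative R).eval u =
          (P r₀).eval u * ∏ i, (P (r i)).eval (c i * u + Real.log (α i))) ∧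
        ∀ h : Fin k → ℤ, ∃ K : ℝ, ∀ X : ℝ, 1 ≤ X →
          |∑ n ∈ Icc 1 ⌊X⌋₊, (d r₀ n : ℝ) * ∏ i, (d (r i) ((⌊α i * (n : ℝ) ^ c i⌋₊ : ℤ) + h i).toNat : ℝ) -
            X * R.eval (Real.log X)| ≤ K * X ^ (1 - δ)) ∧
    -- (2) arbitrary sequences
    (∀ r, 1 ≤ r → ∀ (k : ℕ) (c : Fin k → ℝ), (∀ i, 0 < c i) → ∃ δ : ℝ, 0 < δ ∧ ∀ a : Fin k → ℕ → ℂ,
      (∀ i, ∀ ε : ℝ, 0 < ε → ∃ C : ℝ, ∀ m : ℕ, ‖a i m‖ ≤ C * ((m : ℝ) + 1) ^ ε) →
      ∀ᵐ α : Fin k → ℝ, (∀ i, 0 < α i) → ∃ K : ℝ, ∀ N : ℕ, 1 ≤ N →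
        ‖∑ n ∈ Icc 1 N, ((d r n : ℂ) - (((P r).eval (Real.log n) : ℝ) : ℂ)) *
          ∏ i, a i ⌊α i * (n : ℝ) ^ c i⌋₊‖ ≤ K * (N : ℝ) ^ (1 - δ)) := by
  obtain ⟨P, hP⟩ := Pool.Agent.H49.DM.dens_all
  have hP0 : ∀ r, 1 ≤ r → P r ≠ 0 := by
    intro r hr h
    have h1 := (hP r hr).2.1
    rw [h, leadingCoeff_zero] at h1
    have : (0 : ℝ) < 1 / ((r - 1).factorial : ℝ) := by positivity
    linarith
  refine ⟨P, fun r hr => ⟨(hP r hr).1, (hP r hr).2.1⟩, ?_, ?_⟩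
  · intro k r0 r c hr0 hr hc
    obtain ⟨δ, hδ, h⟩ := Pool.Agent.H49.DM.metric P hP k r0 hr0 r hr c hc
    refine ⟨δ, hδ, ?_⟩
    filter_upwards [h] with α hα hα0
    obtain ⟨R, hR, hR1, hR2⟩ := Pool.Agent.H49.DM.exists_R (Pool.Agent.H49.DM.QQ (P r0) (fun i => P (r i)) α c)
    have hQ := Pool.Agent.H49.DM.QQ_deg (P r0) (hP0 r0 hr0) (fun i => P (r i)) (fun i => hP0 _ (hr i)) α c hc
    refine ⟨R, ?_, ?_, ?_, ?_⟩
    · rw [hR1, hQ.1, (hP r0 hr0).1]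
      congr 1
      exact sum_congr rfl fun i _ => (hP _ (hr i)).1
    · rw [hR2, hQ.2, (hP r0 hr0).2.1]
      have e : ∏ i, ((P (r i)).leadingCoeff * c i ^ (P (r i)).natDegree) =
          (∏ i, c i ^ (r i - 1)) / ∏ i, ((r i - 1).factorial : ℝ) := by
        rw [← prod_div_distrib]
        refine prod_congr rfl fun i _ => ?_
        rw [(hP _ (hr i)).1, (hP _ (hr i)).2.1]
        ring
      rw [e]
      have : (∏ i, ((r i - 1).factorial : ℝ)) ≠ 0 := prod_ne_zero_iff.2 fun i _ => by positivity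
      field_simp
    · intro u
      rw [← eval_add, hR]
      unfold Pool.Agent.H49.DM.QQ Pool.Agent.H49.DM.lin
      rw [eval_mul, eval_prod]
      congr 1
      refine prod_congr rfl fun i _ => ?_
      simp [eval_comp]
    · intro h
      obtain ⟨K, hK⟩ := hα hα0 R hR h
      exact ⟨K, fun X hX => hK X hX⟩
  · intro r hr k c hc
    obtain ⟨Δ, hΔ, hPN⟩ := (hP r hr).2.2
    obtain ⟨δ, hδ, hδ1, h⟩ := Pool.Agent.H49.DM.orth (P r) r Δ hΔ hPN k c hc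
    refine ⟨δ, hδ, fun a ha => ?_⟩
    have hg : ∀ i, Pool.Agent.H49.DM.Gro (a i) := by
      intro i ε hε
      obtain ⟨C, hC⟩ := ha i ε hε
      refine ⟨|C| + 1, by positivity, fun n => (hC n).trans ?_⟩
      apply mul_le_mul_of_nonneg_right _ (by positivity)
      have := le_abs_self C
      linarith
    filter_upwards [h a hg] with α hα hα0
    obtain ⟨K, hK⟩ := hα hα0
    refine ⟨K, fun N hN => ?_⟩
    have e : ∑ n ∈ Icc 1 N, ((d r n : ℂ) - (((P r).eval (Real.log n) : ℝ) : ℂ)) * ∏ i, a i ⌊α i * (n : ℝ) ^ c i⌋₊ =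
        ∑ n ∈ Icc 1 N, (Pool.Agent.H49.DM.dc r n - Pool.Agent.H49.DM.sm (P r) n) * ∏ i, a i ⌊α i * (n : ℝ) ^ c i⌋₊ := by
      refine sum_congr rfl fun n hn => ?_
      rw [Pool.Agent.H49.DM.sm_pos _ _ (mem_Icc.1 hn).1]
      rfl
    rw [e]
    exact hK N hN

end Pool.Agent.Results.MP_122e00_nt.RealMonomials
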